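import Pool.Agent.K1H76.RG.Stm
import Pool.Agent.H386R2.Artin.BadCount

/-! # A5 of the project RG: large sieve for sums over primes

Dyadic blocks `(T, 2 T]`, `r`-th powers with `T ^ r ≥ x ^ 2`, multiplicative large sieve. -/

set_option autoImplicit false

namespace Pool.Agent.K1H49.RG

open Finset Filter Topology
open Pool.Agent.H386R2.Artin.T1 (cc cc_le prim_of_prime maps_to)
open scoped Nat

lemma sum_pow_gen {R : Type*} [CommRing R] (E : Finset ℕ) (y r : ℕ)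
    (hE : ∀ q ∈ E, q.Prime ∧ q ≤ y) (f : ℕ → R)
    (hf : ∀ v ∈ Fintype.piFinset (fun _ : Fin r => E), ∏ i, f (v i) = f (∏ i, v i)) :
    (∑ q ∈ E, f q) ^ r = ∑ n ∈ Icc 1 (y ^ r), (cc E r n : R) * f n := by
  have h1 : (∑ q ∈ E, f q) ^ r =
      ∑ v ∈ Fintype.piFinset (fun _ : Fin r => E), ∏ i, f (v i) := by
    have := Finset.prod_univ_sum (fun _ : Fin r => E) (fun _ (q : ℕ) => f q)
    rw [← this]
    simp
  rw [h1, sum_congr rfl hf, ← Finset.sum_fiberwise_of_maps_to (maps_to E y r hE)]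
  apply sum_congr rfl
  intro n _
  rw [sum_congr rfl (g := fun _ => f n)]
  · rw [sum_const, nsmul_eq_mul]; rfl
  · intro v hv
    rw [mem_filter] at hv
    rw [hv.2]

lemma w_prod {r : ℕ} (v : Fin r → ℕ) (σ : ℝ) :
    ∏ i, ((v i : ℝ) ^ (-σ)) = ((∏ i, v i : ℕ) : ℝ) ^ (-σ) := by
  rw [Real.finsetProd_rpow univ (fun i => (v i : ℝ)) (fun i _ => Nat.cast_nonneg _) (-σ)]
  push_cast
  rfl

lemma w_le {n : ℕ} (hn : 1 ≤ n) {σ : ℝ} (hσ : 1 ≤ σ) : (n : ℝ) ^ (-σ) ≤ 1 / (n : ℝ) := by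
  have h1 : (1 : ℝ) ≤ n := by exact_mod_cast hn
  calc (n : ℝ) ^ (-σ) ≤ (n : ℝ) ^ (-1 : ℝ) :=
        Real.rpow_le_rpow_of_exponent_le h1 (by linarith)
    _ = 1 / (n : ℝ) := by rw [Real.rpow_neg_one, one_div]

lemma coef_sum (T r : ℕ) (σ : ℝ) (hσ : 1 ≤ σ) (hT : 1 ≤ T) (E : Finset ℕ)
    (hE : ∀ q ∈ E, q.Prime ∧ T < q ∧ q ≤ 2 * T) :
    ∑ n ∈ Icc 1 ((2 * T) ^ r), ‖(cc E r n : ℂ) * (((n : ℝ) ^ (-σ) : ℝ) : ℂ)‖ ^ 2 ≤
      (r ! : ℝ) / (T : ℝ) ^ r := by
  have hT0 : (0 : ℝ) < T := by exact_mod_cast hT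
  have hEp : ∀ q ∈ E, q.Prime ∧ q ≤ 2 * T := fun q hq => ⟨(hE q hq).1, (hE q hq).2.2⟩
  have h1 : ∑ n ∈ Icc 1 ((2 * T) ^ r), (cc E r n : ℝ) * (n : ℝ) ^ (-σ) ≤ 1 := by
    rw [← sum_pow_gen E (2 * T) r hEp (fun n => (n : ℝ) ^ (-σ)) (fun v _ => w_prod v σ)]
    have h2 : ∑ q ∈ E, (q : ℝ) ^ (-σ) ≤ 1 := by
      have h3 : ∀ q ∈ E, (q : ℝ) ^ (-σ) ≤ 1 / (T : ℝ) := by
        intro q hq
        obtain ⟨hq1, hq2, _⟩ := hE q hq
        refine (w_le hq1.one_le hσ).trans ?_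
        apply one_div_le_one_div_of_le hT0
        exact_mod_cast hq2.le
      refine (sum_le_sum h3).trans ?_
      rw [sum_const, nsmul_eq_mul]
      have h4 : #E ≤ T := by
        have h5 : E ⊆ Ioc T (2 * T) := by
          intro q hq
          rw [mem_Ioc]
          exact (hE q hq).2
        refine (card_le_card h5).trans ?_
        rw [Nat.card_Ioc]
        omega
      have h6 : (#E : ℝ) ≤ T := by exact_mod_cast h4
      rw [mul_one_div, div_le_one hT0]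
      exact h6
    exact pow_le_one₀ (sum_nonneg fun q _ => by positivity) h2
  have h2 : ∀ n ∈ Icc 1 ((2 * T) ^ r),
      ‖(cc E r n : ℂ) * (((n : ℝ) ^ (-σ) : ℝ) : ℂ)‖ ^ 2 ≤
        (r ! : ℝ) / (T : ℝ) ^ r * ((cc E r n : ℝ) * (n : ℝ) ^ (-σ)) := by
    intro n hn
    rw [mem_Icc] at hn
    have hw : 0 ≤ (n : ℝ) ^ (-σ) := by positivity
    have e1 : ‖(cc E r n : ℂ) * (((n : ℝ) ^ (-σ) : ℝ) : ℂ)‖ = (cc E r n : ℝ) * (n : ℝ) ^ (-σ) := by
      rw [norm_mul, Complex.norm_natCast, Complex.norm_real, Real.norm_of_nonneg hw]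
    rw [e1, sq]
    rcases Nat.eq_zero_or_pos (cc E r n) with h0 | h0
    · rw [h0]; simp
    · apply mul_le_mul_of_nonneg_right _ (by positivity)
      have hcc : (cc E r n : ℝ) ≤ (r ! : ℝ) := by
        exact_mod_cast cc_le E r n fun q hq => (hE q hq).1
      have hnT : (T : ℝ) ^ r ≤ n := by
        unfold cc at h0
        obtain ⟨v, hv⟩ := card_pos.mp h0
        rw [mem_filter, Fintype.mem_piFinset] at hv
        have h3 : T ^ r ≤ n := by
          rw [← hv.2]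
          calc T ^ r = ∏ _i : Fin r, T := by simp
            _ ≤ ∏ i, v i := prod_le_prod' fun i _ => (hE _ (hv.1 i)).2.1.le
        exact_mod_cast h3
      have hTr : (0 : ℝ) < (T : ℝ) ^ r := by positivity
      calc (cc E r n : ℝ) * (n : ℝ) ^ (-σ) ≤ (r ! : ℝ) * (1 / (T : ℝ) ^ r) := by
            apply mul_le_mul hcc _ hw (by positivity)
            exact (w_le hn.1 hσ).trans (one_div_le_one_div_of_le hTr hnT)
        _ = (r ! : ℝ) / (T : ℝ) ^ r := by ring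
  refine (sum_le_sum h2).trans ?_
  rw [← mul_sum]
  calc (r ! : ℝ) / (T : ℝ) ^ r * ∑ n ∈ Icc 1 ((2 * T) ^ r), (cc E r n : ℝ) * (n : ℝ) ^ (-σ) ≤
        (r ! : ℝ) / (T : ℝ) ^ r * 1 := mul_le_mul_of_nonneg_left h1 (by positivity)
    _ = _ := mul_one _

/-- one block -/
theorem block (x T r : ℕ) (σ : ℝ) (hσ : 1 ≤ σ) (hT : 1 ≤ T) (hr : (x : ℝ) ^ 2 ≤ (T : ℝ) ^ r)
    (E : Finset ℕ) (hE : ∀ q ∈ E, q.Prime ∧ T < q ∧ q ≤ 2 * T) (V : ℝ) (hV : 0 < V)
    (Bad : Finset ℕ) (hB : ∀ p ∈ Bad, p.Prime ∧ p ≤ x ∧ ∃ χ : DirichletCharacter ℂ p, χ ≠ 1 ∧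
      V < ‖∑ q ∈ E, χ (q : ZMod p) * (((q : ℝ) ^ (-σ) : ℝ) : ℂ)‖) :
    (#Bad : ℝ) * V ^ (2 * r) ≤ 12 * 2 ^ r * (r ! : ℝ) := by
  classical
  have hT0 : (0 : ℝ) < T := by exact_mod_cast hT
  have hEp : ∀ q ∈ E, q.Prime ∧ q ≤ 2 * T := fun q hq => ⟨(hE q hq).1, (hE q hq).2.2⟩
  have hLS := Helper112.mult_large_sieve ((2 * T) ^ r) x
    (fun n => (cc E r n : ℂ) * (((n : ℝ) ^ (-σ) : ℝ) : ℂ))
  have hsub : Bad ⊆ Icc 1 x := by
    intro p hp
    rw [mem_Icc]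
    exact ⟨(hB p hp).1.one_le, (hB p hp).2.1⟩
  have hlow : (Bad.card : ℝ) * V ^ (2 * r) ≤ ∑ f ∈ Icc 1 x, ((f : ℝ) / (Nat.totient f : ℝ)) *
      ∑ χ ∈ (univ : Finset (DirichletCharacter ℂ f)).filter (fun χ => χ.IsPrimitive),
        ‖∑ n ∈ Icc 1 ((2 * T) ^ r),
          (cc E r n : ℂ) * (((n : ℝ) ^ (-σ) : ℝ) : ℂ) * χ (n : ZMod f)‖ ^ 2 := by
    rw [← nsmul_eq_mul, ← sum_const]
    refine le_trans (sum_le_sum ?_) (sum_le_sum_of_subset_of_nonneg hsub ?_)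
    · intro p hp
      obtain ⟨hpp, _, χ, hχ1, hχM⟩ := hB p hp
      have hprim := prim_of_prime hpp hχ1
      have h0 : (∑ q ∈ E, χ (q : ZMod p) * (((q : ℝ) ^ (-σ) : ℝ) : ℂ)) ^ r =
          ∑ n ∈ Icc 1 ((2 * T) ^ r),
            (cc E r n : ℂ) * (((n : ℝ) ^ (-σ) : ℝ) : ℂ) * χ (n : ZMod p) := by
        rw [sum_pow_gen E (2 * T) r hEp
          (fun n => χ (n : ZMod p) * (((n : ℝ) ^ (-σ) : ℝ) : ℂ))]
        · apply sum_congr rfl
          intro n _
          ring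
        · intro v _
          rw [prod_mul_distrib, ← Complex.ofReal_prod, w_prod]
          congr 1
          rw [Nat.cast_prod, map_prod]
      have h1 : V ^ (2 * r) ≤ ‖∑ n ∈ Icc 1 ((2 * T) ^ r),
            (cc E r n : ℂ) * (((n : ℝ) ^ (-σ) : ℝ) : ℂ) * χ (n : ZMod p)‖ ^ 2 := by
        rw [← h0, norm_pow, ← pow_mul, mul_comm r 2]
        exact pow_le_pow_left₀ hV.le hχM.le _
      have h2 := single_le_sum (f := fun χ : DirichletCharacter ℂ p =>
          ‖∑ n ∈ Icc 1 ((2 * T) ^ r),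
            (cc E r n : ℂ) * (((n : ℝ) ^ (-σ) : ℝ) : ℂ) * χ (n : ZMod p)‖ ^ 2)
          (fun _ _ => sq_nonneg _) (mem_filter.mpr ⟨mem_univ _, hprim⟩)
      have h3 : (1 : ℝ) ≤ (p : ℝ) / (Nat.totient p : ℝ) := by
        have h0 : (0 : ℝ) < (Nat.totient p : ℝ) := by
          exact_mod_cast Nat.totient_pos.mpr hpp.pos
        rw [le_div_iff₀ h0, one_mul]
        exact_mod_cast Nat.totient_le p
      calc V ^ (2 * r) ≤ _ := h1.trans h2
        _ ≤ _ := le_mul_of_one_le_left (sum_nonneg fun _ _ => sq_nonneg _) h3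
    · intro f _ _
      exact mul_nonneg (div_nonneg (Nat.cast_nonneg _) (Nat.cast_nonneg _))
        (sum_nonneg fun _ _ => sq_nonneg _)
  have hTr : (0 : ℝ) < (T : ℝ) ^ r := by positivity
  calc (#Bad : ℝ) * V ^ (2 * r)
      ≤ 6 * ((((2 * T) ^ r : ℕ) : ℝ) + (x : ℝ) ^ 2) *
        ∑ n ∈ Icc 1 ((2 * T) ^ r), ‖(cc E r n : ℂ) * (((n : ℝ) ^ (-σ) : ℝ) : ℂ)‖ ^ 2 := by
        refine hlow.trans ?_
        convert hLS using 1
    _ ≤ 6 * ((2 : ℝ) ^ r * (T : ℝ) ^ r + (T : ℝ) ^ r) * ((r ! : ℝ) / (T : ℝ) ^ r) := by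
        apply mul_le_mul _ (coef_sum T r σ hσ hT E hE) (sum_nonneg fun _ _ => sq_nonneg _)
          (by positivity)
        push_cast
        rw [mul_pow]
        linarith
    _ = 6 * ((2 : ℝ) ^ r + 1) * (r ! : ℝ) := by field_simp
    _ ≤ 12 * 2 ^ r * (r ! : ℝ) := by
        have h1 : (1 : ℝ) ≤ 2 ^ r := one_le_pow₀ (by norm_num)
        apply mul_le_mul_of_nonneg_right _ (by positivity)
        linarith

/-- cutting into dyadic blocks -/
lemma cut (g : ℕ → ℂ) (Y J : ℕ) : ∑ q ∈ Ioc Y (2 ^ J * Y), g q =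
    ∑ j ∈ range J, ∑ q ∈ Ioc (2 ^ j * Y) (2 * (2 ^ j * Y)), g q := by
  induction J with
  | zero => simp
  | succ J ih =>
    rw [sum_range_succ, ← ih, pow_succ, show 2 ^ J * 2 * Y = 2 * (2 ^ J * Y) by ring]
    rw [Finset.sum_Ioc_consecutive g (Nat.le_mul_of_pos_left _ (by positivity)) (by omega)]

/-- the growth estimate -/
lemma grow (η : ℝ) : ∀ᶠ x : ℕ in atTop, 2 ≤ Real.log x ∧
    1 ≤ Real.log (Real.log x) ∧ 18 / η ^ 2 ≤ Real.log x ∧
    36 * Real.log x ^ 20 ≤ (x : ℝ) ^ (1 / 2 : ℝ) := by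
  have hlogt : Tendsto (fun x : ℕ => Real.log x) atTop atTop :=
    Real.tendsto_log_atTop.comp tendsto_natCast_atTop_atTop
  have hll : Tendsto (fun x : ℕ => Real.log (Real.log x)) atTop atTop :=
    Real.tendsto_log_atTop.comp hlogt
  have e1 : ∀ᶠ x : ℕ in atTop, 2 ≤ Real.log x := hlogt.eventually_ge_atTop 2
  have h1 := (isLittleO_log_rpow_rpow_atTop (20 : ℝ) (show (0 : ℝ) < 1 / 2 by norm_num)).bound
    (show (0 : ℝ) < 1 / 36 by positivity)
  have h2 := tendsto_natCast_atTop_atTop (R := ℝ) |>.eventually h1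
  filter_upwards [e1, hll.eventually_ge_atTop 1, hlogt.eventually_ge_atTop (18 / η ^ 2), h2]
    with x a1 a2 a3 a4
  refine ⟨a1, a2, a3, ?_⟩
  rw [Real.norm_eq_abs, Real.norm_eq_abs, abs_of_nonneg (by positivity),
    abs_of_nonneg (by positivity)] at a4
  have h3 : Real.log x ^ (20 : ℝ) = Real.log x ^ 20 := by
    rw [← Real.rpow_natCast]; norm_num
  rw [h3] at a4
  linarith

/-- **A5.** -/
theorem t_LSP : Pool.Agent.K1H76.RG.S_LSP := by
  classical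
  refine ⟨112, by norm_num, ?_⟩
  intro B hB η hη
  filter_upwards [grow η] with x hx
  obtain ⟨f1, f2, f3, f4⟩ := hx
  intro Y hY1 _
  set L : ℝ := Real.log x with hL
  set l : ℝ := Real.log L with hl
  have hL0 : 0 < L := by linarith
  have hl0 : 0 < l := by linarith
  have hxpos : (0 : ℝ) < x := by
    by_contra hcon
    push Not at hcon
    have : x = 0 := by
      have h := le_antisymm hcon (Nat.cast_nonneg x)
      exact_mod_cast h
    rw [hL, this] at f1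
    simp at f1
    linarith
  have hYpos : (0 : ℝ) < Y := lt_of_lt_of_le (by positivity) hY1
  have hY0 : 1 ≤ Y := by
    have : 0 < Y := by exact_mod_cast hYpos
    omega
  set σ : ℝ := 1 + 1 / L ^ 4 with hσ
  have hσ1 : 1 ≤ σ := by
    have : 0 ≤ 1 / L ^ 4 := by positivity
    linarith
  set Z : ℕ := ⌊Real.exp (L ^ 6)⌋₊ with hZ
  set R : ℕ := ⌈L / (56 * l)⌉₊ with hR
  set J : ℕ := ⌈2 * L ^ 6⌉₊ with hJ
  have hR1 : L / (56 * l) ≤ R := Nat.le_ceil _
  have hR2 : (R : ℝ) < L / (56 * l) + 1 := Nat.ceil_lt_add_one (by positivity)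
  have hJ1 : 2 * L ^ 6 ≤ J := Nat.le_ceil _
  have hJ2 : (J : ℝ) < 2 * L ^ 6 + 1 := Nat.ceil_lt_add_one (by positivity)
  have hL6 : 1 ≤ L ^ 6 := one_le_pow₀ (by linarith)
  have hJ3 : (J : ℝ) ≤ 3 * L ^ 6 := by linarith
  have hJpos : (0 : ℝ) < J := by linarith
  have hRL : (R : ℝ) ≤ L := by
    have h1 : L / (56 * l) ≤ L / 56 := by
      apply div_le_div_of_nonneg_left hL0.le (by norm_num)
      linarith
    linarith
  -- `Y ^ R ≥ x ^ 2`
  have hYR : (x : ℝ) ^ 2 ≤ (Y : ℝ) ^ R := by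
    have h1 : 112 * l ≤ Real.log Y := by
      have := Real.log_le_log (by positivity) hY1
      rwa [Real.log_rpow hL0] at this
    have h2 : 2 * L ≤ R * Real.log Y := by
      have h3 : L ≤ R * (56 * l) := by
        rwa [div_le_iff₀ (by positivity)] at hR1
      have h4 : (R : ℝ) * (112 * l) ≤ R * Real.log Y :=
        mul_le_mul_of_nonneg_left h1 (Nat.cast_nonneg _)
      linarith
    rw [← Real.log_le_log_iff (by positivity) (by positivity), Real.log_pow, Real.log_pow]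
    push_cast
    exact h2
  -- `Z ≤ 2 ^ J * Y`
  have hZJ : Z ≤ 2 ^ J * Y := by
    have h1 : (Z : ℝ) ≤ Real.exp (L ^ 6) := Nat.floor_le (Real.exp_pos _).le
    have h2 : Real.exp (L ^ 6) ≤ (2 : ℝ) ^ J := by
      rw [← Real.rpow_natCast (2 : ℝ) J, Real.rpow_def_of_pos (by norm_num : (0 : ℝ) < 2)]
      apply Real.exp_le_exp.mpr
      have h3 := Real.log_two_gt_d9
      nlinarith
    have h3 : Z ≤ 2 ^ J := by exact_mod_cast h1.trans h2
    calc Z ≤ 2 ^ J := h3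
      _ ≤ 2 ^ J * Y := Nat.le_mul_of_pos_right _ (by omega)
  set E : ℕ → Finset ℕ := fun j => (Ioc (2 ^ j * Y) (2 * (2 ^ j * Y))).filter
    (fun q => q.Prime ∧ q ≤ Z) with hEd
  have hsplit : ∀ f : ℕ → ℂ, ∑ q ∈ (Ioc Y Z).filter Nat.Prime, f q =
      ∑ j ∈ range J, ∑ q ∈ E j, f q := by
    intro f
    have h1 : (Ioc Y Z).filter Nat.Prime = (Ioc Y (2 ^ J * Y)).filter
        (fun q => q.Prime ∧ q ≤ Z) := by
      ext q
      simp only [mem_filter, mem_Ioc]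
      constructor
      · rintro ⟨⟨a, b⟩, c⟩
        exact ⟨⟨a, b.trans hZJ⟩, c, b⟩
      · rintro ⟨⟨a, _⟩, c, b⟩
        exact ⟨⟨a, b⟩, c⟩
    rw [h1, sum_filter, cut]
    apply sum_congr rfl
    intro j _
    rw [hEd, sum_filter]
  set Bad : ℕ → Finset ℕ := fun j => (Pool.Agent.K1H76.RG.Pr x).filter
    (fun p => ∃ χ : DirichletCharacter ℂ p, χ ≠ 1 ∧
      η / J < ‖∑ q ∈ E j, χ (q : ZMod p) * (((q : ℝ) ^ (-σ) : ℝ) : ℂ)‖) with hBad
  refine ⟨(range J).biUnion Bad, ?_, ?_⟩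
  · have hV : 0 < η / J := by positivity
    have h1 : ∀ j ∈ range J, (#(Bad j) : ℝ) ≤ 12 * 2 ^ R * (R ! : ℝ) * (J / η) ^ (2 * R) := by
      intro j _
      have h2 := block x (2 ^ j * Y) R σ hσ1 (Nat.one_le_iff_ne_zero.mpr (by positivity)) ?_ (E j)
        ?_ (η / J) hV (Bad j) ?_
      · have h3 : (η / J) ^ (2 * R) * (J / η) ^ (2 * R) = 1 := by
          rw [← mul_pow]
          have : η / J * (J / η) = 1 := by field_simp
          rw [this, one_pow]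
        calc (#(Bad j) : ℝ) = (#(Bad j) : ℝ) * (η / J) ^ (2 * R) * (J / η) ^ (2 * R) := by
              rw [mul_assoc, h3, mul_one]
          _ ≤ _ := mul_le_mul_of_nonneg_right h2 (by positivity)
      · refine hYR.trans (pow_le_pow_left₀ hYpos.le ?_ R)
        push_cast
        have : (1 : ℝ) ≤ 2 ^ j := one_le_pow₀ (by norm_num)
        nlinarith
      · intro q hq
        rw [hEd, mem_filter, mem_Ioc] at hq
        exact ⟨hq.2.1, hq.1⟩
      · intro p hp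
        rw [hBad, mem_filter, Pool.Agent.K1H76.RG.Pr, mem_filter, mem_range] at hp
        exact ⟨hp.1.2, by omega, hp.2⟩
    have h2 : (#((range J).biUnion Bad) : ℝ) ≤
        J * (12 * 2 ^ R * (R ! : ℝ) * (J / η) ^ (2 * R)) := by
      have h3 : #((range J).biUnion Bad) ≤ ∑ j ∈ range J, #(Bad j) := card_biUnion_le
      calc (#((range J).biUnion Bad) : ℝ) ≤ ∑ j ∈ range J, (#(Bad j) : ℝ) := by exact_mod_cast h3
        _ ≤ ∑ _j ∈ range J, (12 * 2 ^ R * (R ! : ℝ) * (J / η) ^ (2 * R)) := sum_le_sum h1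
        _ = _ := by rw [sum_const, card_range, nsmul_eq_mul]
    refine h2.trans ?_
    have hfac : (R ! : ℝ) ≤ L ^ R := by
      have h3 : (R ! : ℝ) ≤ (R : ℝ) ^ R := by exact_mod_cast Nat.factorial_le_pow R
      exact h3.trans (pow_le_pow_left₀ (Nat.cast_nonneg _) hRL R)
    have hJη : (J : ℝ) / η ≤ 3 * L ^ 6 / η := by gcongr
    have h3 : 2 ^ R * (R ! : ℝ) * (J / η) ^ (2 * R) ≤ (L ^ 14) ^ R := by
      calc 2 ^ R * (R ! : ℝ) * (J / η) ^ (2 * R) ≤ 2 ^ R * L ^ R * (3 * L ^ 6 / η) ^ (2 * R) := by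
            gcongr
        _ = (18 / η ^ 2 * L ^ 13) ^ R := by
            rw [pow_mul, ← mul_pow, ← mul_pow]
            congr 1
            field_simp
            ring
        _ ≤ (L ^ 14) ^ R := by
            apply pow_le_pow_left₀ (by positivity)
            calc 18 / η ^ 2 * L ^ 13 ≤ L * L ^ 13 :=
                  mul_le_mul_of_nonneg_right f3 (by positivity)
              _ = L ^ 14 := by ring
    have h4 : (L ^ 14) ^ R ≤ L ^ 14 * (x : ℝ) ^ (1 / 4 : ℝ) := by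
      have e1 : L = Real.exp l := by rw [hl, Real.exp_log hL0]
      have e2 : (x : ℝ) ^ (1 / 4 : ℝ) = Real.exp (L / 4) := by
        rw [Real.rpow_def_of_pos hxpos]
        congr 1
        ring
      have e3 : (L ^ 14) ^ R = Real.exp (14 * l * R) := by
        rw [← pow_mul]
        nth_rewrite 1 [e1]
        rw [← Real.exp_nat_mul]
        congr 1
        push_cast
        ring
      have e4 : L ^ 14 = Real.exp (14 * l) := by
        nth_rewrite 1 [e1]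
        rw [← Real.exp_nat_mul]
        norm_num
      rw [e3, e4, e2, ← Real.exp_add]
      apply Real.exp_le_exp.mpr
      have h5 : 14 * l * R ≤ 14 * l * (L / (56 * l) + 1) :=
        mul_le_mul_of_nonneg_left hR2.le (by positivity)
      have h6 : 14 * l * (L / (56 * l) + 1) = 14 * l + L / 4 := by
        field_simp
        ring
      linarith
    calc (J : ℝ) * (12 * 2 ^ R * (R ! : ℝ) * (J / η) ^ (2 * R)) =
          12 * J * (2 ^ R * (R ! : ℝ) * (J / η) ^ (2 * R)) := by ring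
      _ ≤ 12 * (3 * L ^ 6) * (L ^ 14 * (x : ℝ) ^ (1 / 4 : ℝ)) := by
          apply mul_le_mul (by linarith) (h3.trans h4) (by positivity) (by positivity)
      _ = 36 * L ^ 20 * (x : ℝ) ^ (1 / 4 : ℝ) := by ring
      _ ≤ (x : ℝ) ^ (1 / 2 : ℝ) * (x : ℝ) ^ (1 / 4 : ℝ) :=
          mul_le_mul_of_nonneg_right f4 (by positivity)
      _ = (x : ℝ) ^ (3 / 4 : ℝ) := by
          rw [← Real.rpow_add hxpos]; norm_num
  · intro p hp hpx hpE χ hχ
    rw [hsplit]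
    have h1 : ∀ j ∈ range J,
        ‖∑ q ∈ E j, χ (q : ZMod p) * (((q : ℝ) ^ (-σ) : ℝ) : ℂ)‖ ≤ η / J := by
      intro j hj
      by_contra hcon
      push Not at hcon
      apply hpE
      rw [mem_biUnion]
      refine ⟨j, hj, ?_⟩
      rw [hBad, mem_filter, Pool.Agent.K1H76.RG.Pr, mem_filter, mem_range]
      exact ⟨⟨by omega, hp⟩, χ, hχ, hcon⟩
    refine (norm_sum_le _ _).trans ((sum_le_sum h1).trans ?_)
    rw [sum_const, card_range, nsmul_eq_mul]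
    exact le_of_eq (by field_simp)

end Pool.Agent.K1H49.RG
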